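import Pool.Agent.H92.RR.Targets

/-!
# Board `rr_modules`, row RRAP: nonnegative multiplicative functions are rationally almost periodic
-/

set_option autoImplicit false

open MeasureTheory ProbabilityTheory Filter Topology Finset

namespace Pool.Agent.H49.RR

open Pool.Agent.H89.MT Pool.Agent.H92.RR

/-! ### Products -/

theorem prod_mem01 {ι : Type*} (s : Finset ι) (a : ι → ℝ) (ha : ∀ i ∈ s, 0 ≤ a i ∧ a i ≤ 1) :
    0 ≤ ∏ i ∈ s, a i ∧ ∏ i ∈ s, a i ≤ 1 :=
  ⟨Finset.prod_nonneg fun i hi => (ha i hi).1,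
    Finset.prod_le_one (fun i hi => (ha i hi).1) fun i hi => (ha i hi).2⟩

theorem abs_prod_sub_prod_le {ι : Type*} (s : Finset ι) (a b : ι → ℝ)
    (ha : ∀ i ∈ s, 0 ≤ a i ∧ a i ≤ 1) (hb : ∀ i ∈ s, 0 ≤ b i ∧ b i ≤ 1) :
    |∏ i ∈ s, a i - ∏ i ∈ s, b i| ≤ ∑ i ∈ s, |a i - b i| := by
  classical
  induction s using Finset.induction_on with
  | empty => simp
  | insert x s hx ih =>
    rw [Finset.prod_insert hx, Finset.prod_insert hx, Finset.sum_insert hx]
    have ih' := ih (fun i hi => ha i (Finset.mem_insert_of_mem hi))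
      (fun i hi => hb i (Finset.mem_insert_of_mem hi))
    have h1 := ha x (Finset.mem_insert_self x s)
    have h2 := prod_mem01 s b (fun i hi => hb i (Finset.mem_insert_of_mem hi))
    have e : a x * ∏ i ∈ s, a i - b x * ∏ i ∈ s, b i =
        a x * (∏ i ∈ s, a i - ∏ i ∈ s, b i) + (a x - b x) * ∏ i ∈ s, b i := by ring
    rw [e]
    have h3 : |a x * (∏ i ∈ s, a i - ∏ i ∈ s, b i)| ≤ |∏ i ∈ s, a i - ∏ i ∈ s, b i| := by
      rw [abs_mul, abs_of_nonneg h1.1]
      exact mul_le_of_le_one_left (abs_nonneg _) h1.2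
    have h4 : |(a x - b x) * ∏ i ∈ s, b i| ≤ |a x - b x| := by
      rw [abs_mul, abs_of_nonneg h2.1]
      exact mul_le_of_le_one_right (abs_nonneg _) h2.2
    have h5 := abs_add_le (a x * (∏ i ∈ s, a i - ∏ i ∈ s, b i)) ((a x - b x) * ∏ i ∈ s, b i)
    linarith

/-! ### Sums over primes -/

theorem mem_pr {N p : ℕ} : p ∈ pr N ↔ p ≤ N ∧ p.Prime := by
  unfold pr
  rw [Finset.mem_filter, Finset.mem_Icc]
  exact ⟨fun h => ⟨h.1.2, h.2⟩, fun h => ⟨⟨h.2.one_lt.le, h.1⟩, h.2⟩⟩

theorem SS_mono {w : ℕ → ℝ} (hw : ∀ p, 0 ≤ w p) : Monotone (SS w) := by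
  intro N N' h
  unfold SS
  apply Finset.sum_le_sum_of_subset_of_nonneg
  · intro p hp
    rw [mem_pr] at hp ⊢
    exact ⟨hp.1.trans h, hp.2⟩
  · intro p _ _
    exact div_nonneg (hw p) (Nat.cast_nonneg p)

theorem SS_tail {w : ℕ → ℝ} {z N : ℕ} (h : z ≤ N) :
    ∑ p ∈ (pr N).filter (fun p => ¬ p ≤ z), w p / p = SS w N - SS w z := by
  have e : (pr N).filter (fun p => p ≤ z) = pr z := by
    ext p
    rw [Finset.mem_filter, mem_pr, mem_pr]
    exact ⟨fun h => ⟨h.2, h.1.2⟩, fun h' => ⟨⟨h'.1.trans h, h'.2⟩, h'.1⟩⟩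
  have h1 := Finset.sum_filter_add_sum_filter_not (pr N) (fun p => p ≤ z) (fun p => w p / (p : ℝ))
  rw [e] at h1
  unfold SS
  linarith

theorem sq_tail {z N : ℕ} (hz : 0 < z) :
    ∑ p ∈ (pr N).filter (fun p => ¬ p ≤ z), (1 : ℝ) / ((p : ℝ) ^ 2) ≤ 1 / z := by
  rcases le_total N z with h | h
  · have e : (pr N).filter (fun p => ¬ p ≤ z) = ∅ := by
      ext p
      rw [Finset.mem_filter, mem_pr]
      constructor
      · rintro ⟨⟨h1, -⟩, h2⟩
        exact absurd (h1.trans h) h2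
      · intro h1
        exact absurd h1 (Finset.notMem_empty _)
    rw [e, Finset.sum_empty]
    positivity
  · have h1 := sum_Ioc_inv_sq_le_sub (α := ℝ) hz.ne' h
    have h2 : ∑ p ∈ (pr N).filter (fun p => ¬ p ≤ z), (1 : ℝ) / ((p : ℝ) ^ 2) ≤
        ∑ i ∈ Finset.Ioc z N, ((i : ℝ) ^ 2)⁻¹ := by
      calc ∑ p ∈ (pr N).filter (fun p => ¬ p ≤ z), (1 : ℝ) / ((p : ℝ) ^ 2)
          = ∑ p ∈ (pr N).filter (fun p => ¬ p ≤ z), ((p : ℝ) ^ 2)⁻¹ := by
            apply Finset.sum_congr rfl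
            intro p _
            rw [one_div]
        _ ≤ ∑ i ∈ Finset.Ioc z N, ((i : ℝ) ^ 2)⁻¹ := by
            apply Finset.sum_le_sum_of_subset_of_nonneg
            · intro p hp
              rw [Finset.mem_filter, mem_pr] at hp
              rw [Finset.mem_Ioc]
              exact ⟨by omega, hp.1.1⟩
            · intro p _ _
              positivity
    have h3 : (0 : ℝ) ≤ (N : ℝ)⁻¹ := by positivity
    rw [one_div]
    linarith

/-! ### Multiplicative functions -/

theorem mult_all {u : ℕ → I1} (hu : IsMult u) (x y : ℕ) (h : x.Coprime y) :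
    (u (x * y) : ℝ) = u x * u y := by
  rcases Nat.eq_zero_or_pos x with rfl | hx
  · have hy : y = 1 := by simpa using h
    subst hy
    rw [hu.1, mul_one, mul_one]
  · rcases Nat.eq_zero_or_pos y with rfl | hy
    · have hx1 : x = 1 := by simpa using h
      subst hx1
      rw [hu.1, one_mul, one_mul]
    · exact hu.2 x y hx hy h

theorem eq_prod {u : ℕ → I1} (hu : IsMult u) {n N : ℕ} (h1 : 1 ≤ n) (h2 : n ≤ N) :
    (u n : ℝ) = ∏ p ∈ pr N, (u (p ^ n.factorization p) : ℝ) := by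
  have h3 := Nat.multiplicative_factorization (fun n => (u n : ℝ))
    (fun x y hxy => mult_all hu x y hxy) hu.1 (n := n) (by omega)
  rw [h3]
  apply Finsupp.prod_of_support_subset
  · intro p hp
    rw [Nat.support_factorization] at hp
    rw [mem_pr]
    exact ⟨(Nat.le_of_mem_primeFactors hp).trans h2, Nat.prime_of_mem_primeFactors hp⟩
  · intro p _
    rw [pow_zero]
    exact hu.1

/-! ### The periodic function -/

/-- the valuation, capped by `K` -/
noncomputable def cv (K p : ℕ) (m : ℤ) : ℕ :=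
  Nat.findGreatest (fun k => k ≤ K ∧ (p : ℤ) ^ k ∣ m) K

theorem cv_period (K p : ℕ) (m q : ℤ) (h : (p : ℤ) ^ K ∣ q) : cv K p (m + q) = cv K p m := by
  unfold cv
  have e : (fun k => k ≤ K ∧ (p : ℤ) ^ k ∣ m + q) = fun k => k ≤ K ∧ (p : ℤ) ^ k ∣ m := by
    funext k
    apply propext
    constructor
    · rintro ⟨h1, h2⟩
      exact ⟨h1, (dvd_add_left ((pow_dvd_pow _ h1).trans h)).1 h2⟩
    · rintro ⟨h1, h2⟩
      exact ⟨h1, (dvd_add_left ((pow_dvd_pow _ h1).trans h)).2 h2⟩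
  simp only [e]

theorem cv_nat {K p n : ℕ} (hp : p.Prime) (hn : n ≠ 0) :
    cv K p (n : ℤ) = min (n.factorization p) K := by
  have hdvd : ∀ k : ℕ, (p : ℤ) ^ k ∣ (n : ℤ) ↔ k ≤ n.factorization p := by
    intro k
    rw [← hp.pow_dvd_iff_le_factorization hn]
    exact_mod_cast Iff.rfl
  unfold cv
  rw [Nat.findGreatest_eq_iff]
  refine ⟨min_le_right _ _, fun _ => ⟨min_le_right _ _, (hdvd _).2 (min_le_left _ _)⟩, ?_⟩
  intro k hk hk' h
  have h2 := (hdvd k).1 h.2
  omega

/-- the periodic function -/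
noncomputable def Qf (u : ℕ → I1) (h0 : ∀ n, 0 ≤ (u n : ℝ)) (z K : ℕ) (m : ℤ) : I1 :=
  ⟨∏ p ∈ pr z, (u (p ^ cv K p m) : ℝ), by
    have h := prod_mem01 (pr z) (fun p => (u (p ^ cv K p m) : ℝ))
      (fun p _ => ⟨h0 _, (u _).2.2⟩)
    exact ⟨by linarith [h.1], h.2⟩⟩

/-- the pointwise bound -/
theorem pointwise {u : ℕ → I1} (hu : IsMult u) (h0 : ∀ n, 0 ≤ (u n : ℝ)) {z K N n : ℕ}
    (hzN : z ≤ N) (h1 : 1 ≤ n) (h2 : n ≤ N) :
    |(u n : ℝ) - Qf u h0 z K (n : ℤ)| ≤
      ∑ p ∈ pr N, (if p ≤ z then (if p ^ (K + 1) ∣ n + 0 then (1 : ℝ) else 0)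
        else ((1 - (u p : ℝ)) * (if p ∣ n + 0 then (1 : ℝ) else 0) +
          (if p ^ 2 ∣ n + 0 then (1 : ℝ) else 0))) := by
  have hn : n ≠ 0 := by omega
  have e1 := eq_prod hu h1 h2
  have e2 : ((Qf u h0 z K (n : ℤ)) : ℝ) =
      ∏ p ∈ pr N, (if p ≤ z then (u (p ^ cv K p (n : ℤ)) : ℝ) else 1) := by
    have e3 : (pr N).filter (fun p => p ≤ z) = pr z := by
      ext p
      rw [Finset.mem_filter, mem_pr, mem_pr]
      exact ⟨fun h => ⟨h.2, h.1.2⟩, fun h' => ⟨⟨h'.1.trans hzN, h'.2⟩, h'.1⟩⟩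
    rw [← Finset.prod_filter, e3]
    rfl
  rw [e1, e2]
  have h01 : ∀ k, 0 ≤ (u k : ℝ) ∧ (u k : ℝ) ≤ 1 := fun k => ⟨h0 k, (u k).2.2⟩
  refine (abs_prod_sub_prod_le _ _ _ (fun p _ => h01 _) (fun p _ => ?_)).trans ?_
  · split_ifs
    · exact h01 _
    · exact ⟨zero_le_one, le_rfl⟩
  · apply Finset.sum_le_sum
    intro p hp
    rw [mem_pr] at hp
    have hpp := hp.2
    have habs : ∀ a b : ℝ, 0 ≤ a ∧ a ≤ 1 → 0 ≤ b ∧ b ≤ 1 → |a - b| ≤ 1 := by
      intro a b ha hb
      rw [abs_le]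
      constructor <;> linarith [ha.1, ha.2, hb.1, hb.2]
    split_ifs with c1 c2 c3 c4 c5
    · exact habs _ _ (h01 _) (h01 _)
    · have h3 : cv K p (n : ℤ) = n.factorization p := by
        rw [cv_nat hpp hn]
        rw [add_zero, hpp.pow_dvd_iff_le_factorization hn] at c2
        omega
      rw [h3, sub_self, abs_zero]
    · have h4 := habs _ 1 (h01 (p ^ n.factorization p)) ⟨zero_le_one, le_rfl⟩
      have h5 := (h01 p).2
      linarith
    · have h3 : n.factorization p = 1 := by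
        rw [add_zero] at c3 c4
        have h6 : 1 ≤ n.factorization p := by
          rw [← hpp.pow_dvd_iff_le_factorization hn, pow_one]
          exact c3
        rw [hpp.pow_dvd_iff_le_factorization hn] at c4
        omega
      rw [h3, pow_one, abs_sub_comm, abs_of_nonneg (by linarith [(h01 p).2])]
      linarith
    · have h4 := habs _ 1 (h01 (p ^ n.factorization p)) ⟨zero_le_one, le_rfl⟩
      linarith
    · have h3 : n.factorization p = 0 := by
        rw [add_zero] at c3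
        exact Nat.factorization_eq_zero_of_not_dvd c3
      rw [h3, pow_zero, hu.1]
      simp

/-- The sum of `1/n` over the multiples of `d`. -/
theorem sum_dvd (hDIV : T_DIV) (d N : ℕ) (hd : 1 ≤ d) :
    ∑ n ∈ Icc 1 N, (if d ∣ n + 0 then (1 : ℝ) else 0) / n ≤ 1 / d * (1 + Real.log N) := by
  have h := hDIV 0 d N hd
  rw [Nat.cast_zero, zero_add, add_zero] at h
  refine le_trans (le_of_eq ?_) h
  rw [Finset.sum_filter]
  apply Finset.sum_congr rfl
  intro n _
  split_ifs
  · rfl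
  · simp

theorem pf_RRAP (hMERT : T_MERT) (hEUL : T_EUL) (hDIV : T_DIV) : T_RAP := by
  intro u hu h0 ε hε
  set w : ℕ → ℝ := fun p => 1 - (u p : ℝ) with hw
  have hw0 : ∀ p, 0 ≤ w p := fun p => sub_nonneg.2 (u p).2.2
  by_cases hB : BddAbove (Set.range (SS w))
  · -- the sum is bounded
    obtain ⟨z₀, hz₀⟩ : ∃ z₀ : ℕ, (⨆ N, SS w N) - ε / 8 < SS w z₀ :=
      exists_lt_of_lt_ciSup (by linarith)
    obtain ⟨z₁, hz₁⟩ := exists_nat_gt (8 / ε)
    set z : ℕ := max (max z₀ z₁) 1 with hz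
    have hzpos : 0 < z := lt_of_lt_of_le one_pos (le_max_right _ _)
    have hz' : (0 : ℝ) < z := by exact_mod_cast hzpos
    have hzinv : (1 : ℝ) / z ≤ ε / 8 := by
      have h1 : (z₁ : ℝ) ≤ z := by exact_mod_cast (le_max_right z₀ z₁).trans (le_max_left _ 1)
      have h2 : 8 / ε < z := lt_of_lt_of_le hz₁ h1
      rw [div_lt_iff₀ hε] at h2
      rw [div_le_div_iff₀ hz' (by norm_num)]
      linarith
    have htail : ∀ N, z ≤ N → SS w N - SS w z ≤ ε / 8 := by
      intro N _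
      have h1 : SS w N ≤ ⨆ N, SS w N := le_ciSup hB N
      have h2 : SS w z₀ ≤ SS w z := SS_mono hw0 ((le_max_left z₀ z₁).trans (le_max_left _ 1))
      linarith
    obtain ⟨K, hK⟩ : ∃ K : ℕ, (z : ℝ) * (1 / 2) ^ K ≤ ε / 8 := by
      have h1 : Tendsto (fun K : ℕ => (z : ℝ) * (1 / 2) ^ K) atTop (𝓝 ((z : ℝ) * 0)) :=
        (tendsto_pow_atTop_nhds_zero_of_lt_one (by norm_num) (by norm_num)).const_mul _
      rw [mul_zero] at h1
      exact (h1.eventually_le_const (by positivity)).exists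
    set q : ℕ := ∏ p ∈ pr z, p ^ K with hq
    refine ⟨q, Qf u h0 z K, ?_, ?_, ?_⟩
    · exact Finset.prod_pos fun p hp => pow_pos (mem_pr.1 hp).2.pos K
    · intro m
      apply Subtype.ext
      show ∏ p ∈ pr z, (u (p ^ cv K p (m + q)) : ℝ) = ∏ p ∈ pr z, (u (p ^ cv K p m) : ℝ)
      apply Finset.prod_congr rfl
      intro p hp
      rw [cv_period K p m q]
      have h1 : p ^ K ∣ q := Finset.dvd_prod_of_mem (fun p => p ^ K) hp
      exact_mod_cast h1
    · filter_upwards [eventually_ge_atTop (max z 3)] with N hN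
      have hzN : z ≤ N := (le_max_left _ _).trans hN
      have h3N : 3 ≤ N := (le_max_right _ _).trans hN
      have hlog : 1 ≤ Real.log N := by
        rw [Real.le_log_iff_exp_le (by positivity)]
        have h1 : (3 : ℝ) ≤ N := by exact_mod_cast h3N
        linarith [Real.exp_one_lt_d9]
      unfold lavg
      rw [div_le_iff₀ (by linarith)]
      set g : ℕ → ℕ → ℝ := fun p n => (if p ≤ z then (if p ^ (K + 1) ∣ n + 0 then (1 : ℝ) else 0)
        else ((1 - (u p : ℝ)) * (if p ∣ n + 0 then (1 : ℝ) else 0) +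
          (if p ^ 2 ∣ n + 0 then (1 : ℝ) else 0))) with hg
      have hstep : ∑ n ∈ Icc 1 N, |(u n : ℝ) - Qf u h0 z K (n : ℤ)| / n ≤
          ∑ p ∈ pr N, ∑ n ∈ Icc 1 N, g p n / n := by
        rw [Finset.sum_comm]
        apply Finset.sum_le_sum
        intro n hn
        rw [Finset.mem_Icc] at hn
        rw [← Finset.sum_div]
        exact div_le_div_of_nonneg_right (pointwise hu h0 hzN hn.1 hn.2) (Nat.cast_nonneg n)
      have hp : ∀ p ∈ pr N, ∑ n ∈ Icc 1 N, g p n / n ≤
          (if p ≤ z then (1 / 2 : ℝ) ^ K else (w p / p + 1 / (p : ℝ) ^ 2)) *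
            (1 + Real.log N) := by
        intro p hp
        rw [mem_pr] at hp
        have hp0 : 0 < p := hp.2.pos
        have hp0' : (0 : ℝ) < p := by exact_mod_cast hp0
        by_cases hpz : p ≤ z
        · simp only [hg, if_pos hpz]
          refine (sum_dvd hDIV (p ^ (K + 1)) N (Nat.one_le_pow _ _ hp0)).trans ?_
          apply mul_le_mul_of_nonneg_right _ (by linarith)
          rw [Nat.cast_pow, ← one_div_pow]
          have h2 : (1 : ℝ) / p ≤ 1 / 2 := by
            apply one_div_le_one_div_of_le (by norm_num)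
            exact_mod_cast hp.2.two_le
          calc (1 / (p : ℝ)) ^ (K + 1) ≤ (1 / 2 : ℝ) ^ (K + 1) :=
                pow_le_pow_left₀ (by positivity) h2 _
            _ ≤ (1 / 2 : ℝ) ^ K := by
                rw [pow_succ]
                have h4 : (0 : ℝ) ≤ (1 / 2) ^ K := by positivity
                linarith
        · simp only [hg, if_neg hpz]
          have e : ∀ n ∈ Icc 1 N, ((1 - (u p : ℝ)) * (if p ∣ n + 0 then (1 : ℝ) else 0) +
              (if p ^ 2 ∣ n + 0 then (1 : ℝ) else 0)) / (n : ℝ) =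
              w p * ((if p ∣ n + 0 then (1 : ℝ) else 0) / n) +
                (if p ^ 2 ∣ n + 0 then (1 : ℝ) else 0) / n := by
            intro n _
            rw [add_div, mul_div_assoc]
          rw [Finset.sum_congr rfl e, Finset.sum_add_distrib, ← Finset.mul_sum]
          have h1 := mul_le_mul_of_nonneg_left (sum_dvd hDIV p N hp0) (hw0 p)
          have h2 := sum_dvd hDIV (p ^ 2) N (Nat.one_le_pow _ _ hp0)
          rw [Nat.cast_pow] at h2
          calc _ ≤ w p * (1 / p * (1 + Real.log N)) + 1 / (p : ℝ) ^ 2 * (1 + Real.log N) :=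
                add_le_add h1 h2
            _ = (w p / p + 1 / (p : ℝ) ^ 2) * (1 + Real.log N) := by ring
      have hsum : ∑ p ∈ pr N, (if p ≤ z then (1 / 2 : ℝ) ^ K else (w p / p + 1 / (p : ℝ) ^ 2)) ≤
          3 * (ε / 8) := by
        have e3 : (pr N).filter (fun p => p ≤ z) = pr z := by
          ext p
          rw [Finset.mem_filter, mem_pr, mem_pr]
          exact ⟨fun h => ⟨h.2, h.1.2⟩, fun h' => ⟨⟨h'.1.trans hzN, h'.2⟩, h'.1⟩⟩
        rw [Finset.sum_ite, e3, Finset.sum_const, nsmul_eq_mul, Finset.sum_add_distrib,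
          SS_tail hzN]
        have h1 : ((pr z).card : ℝ) ≤ z := by
          have h2 : (pr z).card ≤ z := by
            calc (pr z).card ≤ (Icc 1 z).card := Finset.card_filter_le _ _
              _ = z := by simp
          exact_mod_cast h2
        have h2 : ((pr z).card : ℝ) * (1 / 2) ^ K ≤ ε / 8 :=
          (mul_le_mul_of_nonneg_right h1 (by positivity)).trans hK
        have h3 := htail N hzN
        have h4 := sq_tail (N := N) hzpos
        linarith
      calc ∑ n ∈ Icc 1 N, |(u n : ℝ) - Qf u h0 z K (n : ℤ)| / n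
          ≤ ∑ p ∈ pr N, ∑ n ∈ Icc 1 N, g p n / n := hstep
        _ ≤ ∑ p ∈ pr N, (if p ≤ z then (1 / 2 : ℝ) ^ K else (w p / p + 1 / (p : ℝ) ^ 2)) *
            (1 + Real.log N) := Finset.sum_le_sum hp
        _ = (∑ p ∈ pr N, (if p ≤ z then (1 / 2 : ℝ) ^ K else (w p / p + 1 / (p : ℝ) ^ 2))) *
            (1 + Real.log N) := by rw [Finset.sum_mul]
        _ ≤ 3 * (ε / 8) * (1 + Real.log N) :=
            mul_le_mul_of_nonneg_right hsum (by linarith)
        _ ≤ ε * Real.log N := by nlinarith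
  · -- the sum is unbounded
    obtain ⟨C, hC⟩ := hMERT
    have hunb : ∀ A : ℝ, ∃ N₀, A < SS w N₀ := by
      intro A
      by_contra hcon
      push Not at hcon
      exact hB ⟨A, by rintro _ ⟨N, rfl⟩; exact hcon N⟩
    obtain ⟨N₀, hN₀⟩ := hunb (C + 1 - Real.log ε)
    refine ⟨1, fun _ => z1, one_pos, fun _ => rfl, ?_⟩
    filter_upwards [eventually_ge_atTop (max N₀ 3)] with N hN
    have h3N : 3 ≤ N := (le_max_right _ _).trans hN
    have hlog : 1 ≤ Real.log N := by
      rw [Real.le_log_iff_exp_le (by positivity)]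
      have h1 : (3 : ℝ) ≤ N := by exact_mod_cast h3N
      linarith [Real.exp_one_lt_d9]
    have h1 := hEUL (fun n => (u n : ℝ)) h0 (fun n => (u n).2.2)
      (fun m n hm hn hmn => hu.2 m n hm hn hmn) N
    have h2 : SS (fun n => (u n : ℝ)) N = SS (fun _ => 1) N - SS w N := by
      unfold SS
      rw [← Finset.sum_sub_distrib]
      apply Finset.sum_congr rfl
      intro p _
      simp only [hw]
      ring
    have h3 := hC N h3N
    have h4 : SS w N₀ ≤ SS w N := SS_mono hw0 ((le_max_left _ _).trans hN)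
    unfold lavg
    rw [div_le_iff₀ (by linarith)]
    calc ∑ n ∈ Icc 1 N, |(u n : ℝ) - (z1 : ℝ)| / n = ∑ n ∈ Icc 1 N, (u n : ℝ) / n := by
          apply Finset.sum_congr rfl
          intro n _
          have e : ((z1 : I1) : ℝ) = 0 := rfl
          rw [e, sub_zero, abs_of_nonneg (h0 n)]
      _ ≤ Real.exp (SS (fun n => (u n : ℝ)) N + 1) := h1
      _ ≤ Real.exp (Real.log (Real.log N) + Real.log ε) := by
          apply Real.exp_le_exp.2
          rw [h2]
          linarith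
      _ = ε * Real.log N := by
          rw [Real.exp_add, Real.exp_log (by linarith), Real.exp_log hε, mul_comm]

theorem pf_RAP (hMERT : T_MERT) (hEUL : T_EUL) (hDIV : T_DIV) : T_RAP :=
  pf_RRAP hMERT hEUL hDIV

end Pool.Agent.H49.RR
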